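import Mathlib

/-!
# Refining join-covers of compact elements in modular spatial lattices

Every join-cover `E` of a compact element `p` of a modular lattice with least element in which
every element is a join of points can be refined to a minimal join-cover `F` of `p`.
-/

set_option autoImplicit false

namespace Pool.Agent.Results.MP_d6b04a_al.JoinCoverRefinement

/-- `X` refines `Y`: every element of `X` lies below some element of `Y`. -/
def Refines {L : Type*} [LE L] (X Y : Finset L) : Prop :=
  ∀ x ∈ X, ∃ y ∈ Y, x ≤ y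

/-- `p` is a point (completely join-irreducible): `{x | x < p}` has a largest element. -/
def IsPoint {L : Type*} [Preorder L] (p : L) : Prop :=
  ∃ q : L, IsGreatest {x : L | x < p} q

/-- `L` is spatial: every element is a (possibly infinite) join of points. -/
def IsSpatial (L : Type*) [PartialOrder L] : Prop :=
  ∀ x : L, ∃ s : Set L, (∀ q ∈ s, IsPoint q) ∧ IsLUB s x

/-- `E` is a join-cover of `p`. -/
def IsJoinCover {L : Type*} [Lattice L] [OrderBot L] (p : L) (E : Finset L) : Prop :=
  p ≤ E.sup id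

/-- `E` is a minimal join-cover of `p`. -/
def IsMinimalJoinCover {L : Type*} [Lattice L] [OrderBot L] (p : L) (E : Finset L) : Prop :=
  IsJoinCover p E ∧ ∀ X : Finset L, IsJoinCover p X → Refines X E → E ⊆ X

section aux

variable {L : Type*} [Lattice L] [OrderBot L]

/-- finitely many points below `e` suffice to cover `p` together with `b` -/
lemma exists_points [IsModularLattice L] (hs : IsSpatial L) {p b e : L}
    (hp : IsCompactElement p) (h : p ≤ b ⊔ e) :
    ∃ Q : Finset L, (∀ q ∈ Q, IsPoint q) ∧ Q.sup id ≤ e ∧ Q.sup id ≤ b ⊔ p ∧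
      p ≤ b ⊔ Q.sup id := by
  classical
  have hx : b ⊔ e ⊓ (b ⊔ p) = (b ⊔ e) ⊓ (b ⊔ p) :=
    (sup_inf_assoc_of_le e (le_sup_left : b ≤ b ⊔ p)).symm
  obtain ⟨s, hsp, hlub⟩ := hs (e ⊓ (b ⊔ p))
  let D : Set L := {y | ∃ t : Finset L, (t : Set L) ⊆ s ∧ y = b ⊔ t.sup id}
  have hD : D.Nonempty := ⟨b ⊔ (∅ : Finset L).sup id, ∅, by simp, rfl⟩
  have hdir : DirectedOn (· ≤ ·) D := by
    rintro x ⟨t, ht, rfl⟩ y ⟨u, hu, rfl⟩
    refine ⟨b ⊔ (t ∪ u).sup id, ⟨t ∪ u, by simp [ht, hu], rfl⟩, ?_, ?_⟩
    · exact sup_le_sup_left (Finset.sup_mono Finset.subset_union_left) b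
    · exact sup_le_sup_left (Finset.sup_mono Finset.subset_union_right) b
  have hD2 : IsLUB D (b ⊔ e ⊓ (b ⊔ p)) := by
    constructor
    · rintro y ⟨t, ht, rfl⟩
      apply sup_le_sup_left
      apply Finset.sup_le
      intro q hq
      exact hlub.1 (ht hq)
    · intro y hy
      apply sup_le
      · have := hy ⟨∅, by simp, rfl⟩
        exact le_trans le_sup_left this
      · apply hlub.2
        intro q hq
        have := hy ⟨{q}, by simpa using hq, rfl⟩
        simp only [Finset.sup_singleton, id] at this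
        exact le_trans le_sup_right this
  have hple : p ≤ b ⊔ e ⊓ (b ⊔ p) := by
    rw [hx]
    exact le_inf h le_sup_right
  obtain ⟨y, ⟨t, ht, rfl⟩, hy⟩ := hp D _ hD hdir hD2 hple
  have h1 : t.sup id ≤ e ⊓ (b ⊔ p) := Finset.sup_le (fun q hq => hlub.1 (ht hq))
  exact ⟨t, fun q hq => hsp q (ht hq), h1.trans inf_le_left, h1.trans inf_le_right, hy⟩

/-- irredundant version: `p` is no longer covered if one of the points is replaced by anything
smaller -/
lemma exists_irredundant [IsModularLattice L] [DecidableEq L] (hs : IsSpatial L) {p b e : L}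
    (hp : IsCompactElement p) (h : p ≤ b ⊔ e) :
    ∃ Q : Finset L, (∀ q ∈ Q, IsPoint q) ∧ Q.sup id ≤ e ∧ p ≤ b ⊔ Q.sup id ∧
      ∀ q ∈ Q, ∀ Q' : Finset L, q ∉ Q' → Q ⊆ insert q Q' → Q' ⊆ Q →
        ∀ r, r < q → ¬ p ≤ b ⊔ r ⊔ Q'.sup id := by
  obtain ⟨Q, hQ1, hQ2, hQ3, hQ4⟩ := exists_points hs hp h
  -- choose a subset of minimal cardinality
  let P : ℕ → Prop := fun n => ∃ t : Finset L, t ⊆ Q ∧ p ≤ b ⊔ t.sup id ∧ t.card = n
  have hP : ∃ n, P n := ⟨Q.card, Q, subset_rfl, hQ4, rfl⟩
  have : DecidablePred P := Classical.decPred P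
  obtain ⟨t, ht1, ht2, ht3⟩ := Nat.find_spec hP
  have hmin : ∀ u : Finset L, u ⊆ Q → p ≤ b ⊔ u.sup id → t.card ≤ u.card := by
    intro u hu1 hu2
    rw [ht3]
    exact Nat.find_min' hP ⟨u, hu1, hu2, rfl⟩
  have hle : t.sup id ≤ b ⊔ p := (Finset.sup_mono ht1).trans hQ3
  refine ⟨t, fun q hq => hQ1 q (ht1 hq), (Finset.sup_mono ht1).trans hQ2, ht2, ?_⟩
  intro q hq Q' hqQ' hQQ' hQ'Q r hr hcon
  have hteq : t = insert q Q' := by
    apply Finset.Subset.antisymm hQQ'
    intro x hx
    rcases Finset.mem_insert.1 hx with rfl | hx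
    · exact hq
    · exact hQ'Q hx
  have hcard : Q'.card < t.card := by
    rw [hteq, Finset.card_insert_of_notMem hqQ']
    exact Nat.lt_succ_self _
  set u := b ⊔ Q'.sup id with hu
  have hnp : ¬ p ≤ u := by
    intro h1
    exact absurd (hmin Q' (hQ'Q.trans ht1) h1) (not_le.2 hcard)
  have hbp : u ⊔ q = b ⊔ p := by
    have : u ⊔ q = b ⊔ t.sup id := by
      rw [hteq, Finset.sup_insert, hu, id]
      ac_rfl
    rw [this]
    apply le_antisymm
    · exact sup_le le_sup_left hle
    · exact sup_le le_sup_left ht2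
  -- `r` may be assumed to be the lower cover of `q`
  obtain ⟨qs, hqs1, hqs2⟩ := hQ1 q (ht1 hq)
  have hrq : r ≤ qs := hqs2 hr
  have hcon2 : p ≤ u ⊔ qs := by
    refine hcon.trans ?_
    rw [hu]
    apply sup_le (sup_le ?_ ?_) ?_
    · exact le_sup_left.trans le_sup_left
    · exact hrq.trans le_sup_right
    · exact le_sup_right.trans le_sup_left
  have h1 : q ≤ u ⊔ qs := by
    calc q ≤ u ⊔ q := le_sup_right
      _ = b ⊔ p := hbp
      _ ≤ u ⊔ qs := sup_le (le_sup_left.trans le_sup_left) hcon2
  have h2 : q ⊓ u < q := by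
    apply lt_of_le_of_ne inf_le_left
    intro h3
    have h4 : q ≤ u := inf_eq_left.1 h3
    apply hnp
    calc p ≤ b ⊔ p := le_sup_right
      _ = u ⊔ q := hbp.symm
      _ ≤ u := sup_le le_rfl h4
  have h3 : q ⊓ u ≤ qs := hqs2 h2
  have h4 : q ≤ qs := by
    have h5 : qs ≤ q := le_of_lt hqs1
    have h6 : (qs ⊔ u) ⊓ q = qs ⊔ u ⊓ q := sup_inf_assoc_of_le u h5
    calc q ≤ (qs ⊔ u) ⊓ q := le_inf (by rw [sup_comm]; exact h1) le_rfl
      _ = qs ⊔ u ⊓ q := h6
      _ ≤ qs := sup_le le_rfl (by rw [inf_comm]; exact h3)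
  have h7 : qs < q := hqs1
  exact absurd h7 (not_lt_of_ge h4)

/-- the main construction, by induction on the join-cover -/
lemma exists_refinement [IsModularLattice L] (hs : IsSpatial L) {p : L}
    (hp : IsCompactElement p) [DecidableEq L] (E : Finset L) :
    ∀ b : L, p ≤ b ⊔ E.sup id →
    ∃ F : Finset L, (∀ q ∈ F, IsPoint q) ∧ Refines F E ∧ p ≤ b ⊔ F.sup id ∧
      ∀ q ∈ F, ∀ r, r < q → ¬ p ≤ b ⊔ r ⊔ (F.erase q).sup id := by
  induction E using Finset.induction_on with
  | empty =>
    intro b hb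
    exact ⟨∅, by simp, by intro x hx; simp at hx, hb, by simp⟩
  | insert e E' he ih =>
    intro b hb
    have h1 : p ≤ (b ⊔ E'.sup id) ⊔ e := by
      refine hb.trans ?_
      rw [Finset.sup_insert, id]
      apply sup_le (le_sup_left.trans le_sup_left)
      exact sup_le le_sup_right (le_sup_right.trans le_sup_left)
    obtain ⟨Q, hQ1, hQ2, hQ3, hQ4⟩ := exists_irredundant hs hp h1
    have h2 : p ≤ (b ⊔ Q.sup id) ⊔ E'.sup id := by
      refine hQ3.trans ?_
      apply sup_le (sup_le (le_sup_left.trans le_sup_left) le_sup_right)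
      exact le_sup_right.trans le_sup_left
    obtain ⟨F', hF1, hF2, hF3, hF4⟩ := ih (b ⊔ Q.sup id) h2
    have hF5 : F'.sup id ≤ E'.sup id := by
      apply Finset.sup_le
      intro q hq
      obtain ⟨y, hy, hqy⟩ := hF2 q hq
      exact le_trans hqy (Finset.le_sup (f := id) hy)
    refine ⟨Q ∪ F', ?_, ?_, ?_, ?_⟩
    · intro q hq
      rcases Finset.mem_union.1 hq with hq | hq
      · exact hQ1 q hq
      · exact hF1 q hq
    · intro q hq
      rcases Finset.mem_union.1 hq with hq | hq
      · exact ⟨e, Finset.mem_insert_self _ _, le_trans (Finset.le_sup (f := id) hq) hQ2⟩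
      · obtain ⟨y, hy, hqy⟩ := hF2 q hq
        exact ⟨y, Finset.mem_insert_of_mem hy, hqy⟩
    · rw [Finset.sup_union, ← sup_assoc]
      exact hF3
    · intro q hq r hr hcon
      by_cases hqF : q ∈ F'
      · apply hF4 q hqF r hr
        refine hcon.trans ?_
        apply sup_le (sup_le ?_ ?_) ?_
        · exact le_sup_left.trans (le_sup_left.trans le_sup_left)
        · exact le_sup_right.trans le_sup_left
        · apply Finset.sup_le
          intro x hx
          rcases Finset.mem_union.1 (Finset.mem_of_mem_erase hx) with hx' | hx'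
          · exact (Finset.le_sup (f := id) hx').trans
              (le_sup_right.trans (le_sup_left.trans le_sup_left))
          · exact (Finset.le_sup (f := id)
              (Finset.mem_erase.2 ⟨Finset.ne_of_mem_erase hx, hx'⟩)).trans le_sup_right
      · have hqQ : q ∈ Q := by
          rcases Finset.mem_union.1 hq with hq | hq
          · exact hq
          · exact absurd hq hqF
        apply hQ4 q hqQ (Q.erase q) (Finset.notMem_erase q Q)
          (by rw [Finset.insert_erase hqQ]) (Finset.erase_subset q Q) r hr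
        refine hcon.trans ?_
        apply sup_le (sup_le ?_ ?_) ?_
        · exact le_sup_left.trans (le_sup_left.trans le_sup_left)
        · exact le_sup_right.trans le_sup_left
        · apply Finset.sup_le
          intro x hx
          rcases Finset.mem_union.1 (Finset.mem_of_mem_erase hx) with hx' | hx'
          · exact (Finset.le_sup (f := id)
              (Finset.mem_erase.2 ⟨Finset.ne_of_mem_erase hx, hx'⟩)).trans le_sup_right
          · exact (Finset.le_sup (f := id) hx').trans
              (hF5.trans (le_sup_right.trans (le_sup_left.trans le_sup_left)))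

end aux

/-- In a modular lattice with least element in which every element is a join of points, every
join-cover of a compact element `p` is refined by a minimal join-cover of `p`. -/
theorem result {L : Type*} [Lattice L] [OrderBot L] [IsModularLattice L] (hs : IsSpatial L)
    (p : L) (hp : IsCompactElement p) (E : Finset L) (hE : IsJoinCover p E) :
    ∃ F : Finset L, IsMinimalJoinCover p F ∧ Refines F E := by
  classical
  obtain ⟨F, hF1, hF2, hF3, hF4⟩ := exists_refinement hs hp E ⊥ (by rw [bot_sup_eq]; exact hE)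
  rw [bot_sup_eq] at hF3
  refine ⟨F, ⟨hF3, ?_⟩, hF2⟩
  intro X hX hXF q hq
  by_contra hqX
  obtain ⟨qs, hqs1, hqs2⟩ := hF1 q hq
  apply hF4 q hq qs hqs1
  rw [bot_sup_eq]
  refine le_trans hX ?_
  apply Finset.sup_le
  intro x hx
  obtain ⟨y, hy, hxy⟩ := hXF x hx
  by_cases hyq : y = q
  · subst hyq
    have hxq : x < y := lt_of_le_of_ne hxy (fun h => hqX (h ▸ hx))
    exact (hqs2 hxq).trans le_sup_left
  · exact hxy.trans ((Finset.le_sup (f := id) (Finset.mem_erase.2 ⟨hyq, hy⟩)).trans le_sup_right)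

end Pool.Agent.Results.MP_d6b04a_al.JoinCoverRefinement
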